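import Pool.Agent.Helper88.SE.Goals
import Pool.Agent.Helper51.TU.TL
import Pool.Agent.Helper10.TU.BH
import Pool.Agent.Helper57.TU.BM

/-! # TK (project SE): counting with the Brun-Hooley sieve, arbitrary points -/

set_option autoImplicit false

open Finset Filter Topology

open scoped Classical

namespace Pool.Agent.Helper33.SE

open Pool.Agent.Helper88.SE
open Pool.Agent.Helper88.PP (pr Rg om Sf SS uu vv ee LA VV QQ XX cost)
open Pool.Agent.Helper88.RR (gg)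
open Pool.Agent.Helper88.GM (NI XI In gB)
open Pool.Agent.Helper88.TU (Su AA AX Ut EF hit size size_gg)
open Pool.Agent.Helper74.PP (sw crt ap_exists M_lower)
open Pool.Agent.Helper64.RR (mem_pr)
open Pool.Agent.Helper8.GM (XX_le_XI sum_swg)
open Pool.Agent.Helper6.RR (per_bound prod_per)
open Pool.Agent.Helper51.TU (hit_sub hit_empty prod_sw_hit FF sum_pow_le final)

/-- the number of classes of `B` modulo `p` -/
noncomputable def ka (B : Finset ℕ) (p : ℕ) : ℕ := (B.image (fun i => i % p)).card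

theorem ka_le (B : Finset ℕ) (p : ℕ) : ka B p ≤ B.card := card_image_le

theorem gg_le_gB (y z : ℕ) (B : Finset ℕ) (hB : B.card ≤ y) : gg y z B.card ≤ gB y z B := by
  unfold gg gB
  refine prod_le_prod (fun p hp => ?_) fun p hp => ?_
  · obtain ⟨h1, -, h3⟩ := mem_pr.1 hp
    have h4 : (0 : ℝ) < p := by exact_mod_cast h3.pos
    have h5 : (B.card : ℝ) ≤ p := by exact_mod_cast hB.trans h1.le
    have h6 : (B.card : ℝ) / p ≤ 1 := (div_le_one h4).2 h5
    linarith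
  · have h5 : ((B.image (fun i => i % p)).card : ℝ) ≤ B.card := by exact_mod_cast ka_le B p
    have h6 : ((B.image (fun i => i % p)).card : ℝ) / p ≤ (B.card : ℝ) / p :=
      div_le_div_of_nonneg_right h5 (Nat.cast_nonneg _)
    linarith

theorem count_hit (u v Q y z b : ℕ) (B : Finset ℕ) (d : ℕ → ℕ) (huv : u ≤ v) (hb : b < Q)
    (hd : ∀ i ∈ B, 0 < d i) (hc : ∀ i ∈ B, Nat.Coprime Q (d i))
    (hcc : ∀ i ∈ B, ∀ j ∈ B, i ≠ j → Nat.Coprime (d i) (d j))
    (hq : ∀ p : ℕ, p.Prime → y < p → p ≤ z → ¬ p ∣ Q * ∏ i ∈ B, d i)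
    (A : Finset ℕ) (hA : A ⊆ pr y z) :
    |(((FF u v Q b B d).filter (fun n => A ⊆ hit y z B n)).card : ℝ)
      - XI u v Q / (∏ i ∈ B, (d i : ℝ)) * ∏ p ∈ A, ((ka B p : ℝ) / p)|
      ≤ 2 * (B.card : ℝ) ^ A.card := by
  have hQ : 0 < Q := by omega
  set q := Q * ∏ i ∈ B, d i with hqdef
  have hq0 : 0 < q := Nat.mul_pos hQ (Finset.prod_pos hd)
  obtain ⟨r, hr⟩ := crt Q b hb B d hd hc hcc
  obtain ⟨a, N, hset, hN⟩ := ap_exists u v q r hq0 huv
  have e1 : (((FF u v Q b B d).filter (fun n => A ⊆ hit y z B n)).card : ℝ) =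
      ∑ t ∈ range N, ∏ p ∈ A, sw y z a q B p t := by
    have h1 : FF u v Q b B d = (range N).image (fun t => a + q * t) := by
      rw [← hset, FF]
      ext n
      simp only [NI, mem_filter]
      constructor
      · rintro ⟨⟨h1, h2⟩, h3⟩
        exact ⟨h1, (hr n).1 ⟨h2, h3⟩⟩
      · rintro ⟨h1, h2⟩
        have h4 := (hr n).2 h2
        exact ⟨⟨h1, h4.1⟩, h4.2⟩
    rw [h1, Finset.card_filter]
    push_cast
    rw [Finset.sum_image]
    · exact Finset.sum_congr rfl fun t _ => (prod_sw_hit y z a q B A hA t).symm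
    · intro t _ s _ hts
      have h2 : q * t = q * s := by
        have : a + q * t = a + q * s := hts
        omega
      exact Nat.eq_of_mul_eq_mul_left hq0 h2
  have hprA : ∀ p ∈ A, p.Prime := fun p hp => (mem_pr.1 (hA hp)).2.2
  obtain ⟨g1, g2⟩ := prod_per (sw y z a q B) A hprA (fun p _ t => by
    rw [sw, sw]
    refine if_congr ?_ rfl rfl
    have h : ∀ i, p ∣ a + q * (t + p) + i ↔ p ∣ a + q * t + i := fun i => by
      rw [show a + q * (t + p) + i = (a + q * t + i) + q * p by ring]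
      exact (Nat.dvd_add_left (dvd_mul_left p q))
    simp only [h])
  have hm : 0 < ∏ p ∈ A, p := prod_pos fun p hp => (hprA p hp).pos
  have h3 := per_bound (f := fun t => ∏ p ∈ A, sw y z a q B p t) hm g1
    (fun t => prod_nonneg fun p _ => by
      rw [sw]
      split_ifs <;> norm_num) N
  rw [g2] at h3
  have h4 : ∏ p ∈ A, ∑ t ∈ range p, sw y z a q B p t = ∏ p ∈ A, (ka B p : ℝ) := by
    refine Finset.prod_congr rfl fun p hp => ?_
    obtain ⟨f1, f2, f3⟩ := mem_pr.1 (hA hp)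
    exact sum_swg y z a q p B (hA hp) (hq p f3 f1 f2)
  have h5 : (∏ p ∈ A, (ka B p : ℝ)) / ((∏ p ∈ A, p : ℕ) : ℝ) =
      ∏ p ∈ A, ((ka B p : ℝ) / p) := by
    rw [Nat.cast_prod, prod_div_distrib]
  have hka : ∏ p ∈ A, (ka B p : ℝ) ≤ (B.card : ℝ) ^ A.card := by
    rw [← Finset.prod_const]
    exact Finset.prod_le_prod (fun p _ => Nat.cast_nonneg _) fun p _ => by
      exact_mod_cast ka_le B p
  rw [h4, h5] at h3
  rw [e1]
  have h6 : XI u v Q / ∏ i ∈ B, (d i : ℝ) = ((v - u : ℕ) : ℝ) / (q : ℝ) := by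
    rw [XI, hqdef]
    push_cast
    rw [div_div]
  rw [← h6] at hN
  have h7 : 0 ≤ ∏ p ∈ A, ((ka B p : ℝ) / p) := prod_nonneg fun p _ => by positivity
  have h8 : ∏ p ∈ A, ((ka B p : ℝ) / p) ≤ (B.card : ℝ) ^ A.card := by
    refine le_trans ?_ hka
    refine Finset.prod_le_prod (fun p _ => by positivity) fun p hp => ?_
    have : (1 : ℝ) ≤ p := by exact_mod_cast (hprA p hp).pos
    exact div_le_self (Nat.cast_nonneg _) this
  have h9 : |(N : ℝ) * ∏ p ∈ A, ((ka B p : ℝ) / p)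
      - XI u v Q / (∏ i ∈ B, (d i : ℝ)) * ∏ p ∈ A, ((ka B p : ℝ) / p)|
      ≤ (B.card : ℝ) ^ A.card := by
    rw [← sub_mul, abs_mul, abs_of_nonneg h7]
    calc |(N : ℝ) - XI u v Q / ∏ i ∈ B, (d i : ℝ)| * ∏ p ∈ A, ((ka B p : ℝ) / p)
        ≤ 1 * (B.card : ℝ) ^ A.card := mul_le_mul hN h8 h7 (by norm_num)
      _ = _ := one_mul _
  have h10 := h3.trans hka
  calc |∑ t ∈ range N, ∏ p ∈ A, sw y z a q B p t
        - XI u v Q / (∏ i ∈ B, (d i : ℝ)) * ∏ p ∈ A, ((ka B p : ℝ) / p)|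
      ≤ |∑ t ∈ range N, ∏ p ∈ A, sw y z a q B p t - N * ∏ p ∈ A, ((ka B p : ℝ) / p)|
        + |(N : ℝ) * ∏ p ∈ A, ((ka B p : ℝ) / p)
      - XI u v Q / (∏ i ∈ B, (d i : ℝ)) * ∏ p ∈ A, ((ka B p : ℝ) / p)| := abs_sub_le _ _ _
    _ ≤ (B.card : ℝ) ^ A.card + (B.card : ℝ) ^ A.card := add_le_add h10 h9
    _ = _ := by ring

theorem sum_hit (F : Finset ℕ) (y z : ℕ) (B : Finset ℕ) (M : ℝ) (Ac : Finset (Finset ℕ))
    (hAc : ∀ A ∈ Ac, |((F.filter (fun n => A ⊆ hit y z B n)).card : ℝ)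
      - M * ∏ p ∈ A, ((ka B p : ℝ) / p)| ≤ 2 * (B.card : ℝ) ^ A.card) :
    |∑ n ∈ F, ∑ A ∈ Ac.filter (fun A => A ⊆ hit y z B n), (-1 : ℝ) ^ A.card
      - M * ∑ A ∈ Ac, (-1 : ℝ) ^ A.card * ∏ p ∈ A, ((ka B p : ℝ) / p)|
      ≤ 2 * ∑ A ∈ Ac, (B.card : ℝ) ^ A.card := by
  have h1 : ∑ n ∈ F, ∑ A ∈ Ac.filter (fun A => A ⊆ hit y z B n), (-1 : ℝ) ^ A.card =
      ∑ A ∈ Ac, (-1 : ℝ) ^ A.card * ((F.filter (fun n => A ⊆ hit y z B n)).card : ℝ) := by
    simp only [sum_filter]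
    rw [sum_comm]
    refine sum_congr rfl fun A _ => ?_
    rw [← sum_filter, sum_const, nsmul_eq_mul, mul_comm]
  rw [h1, mul_sum, ← sum_sub_distrib, mul_sum]
  refine (abs_sum_le_sum_abs _ _).trans (sum_le_sum fun A hA => ?_)
  have h2 : (-1 : ℝ) ^ A.card * ((F.filter (fun n => A ⊆ hit y z B n)).card : ℝ)
      - M * ((-1 : ℝ) ^ A.card * ∏ p ∈ A, ((ka B p : ℝ) / p)) =
      (-1 : ℝ) ^ A.card * (((F.filter (fun n => A ⊆ hit y z B n)).card : ℝ)
      - M * ∏ p ∈ A, ((ka B p : ℝ) / p)) := by ring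
  rw [h2, abs_mul, abs_pow, abs_neg, abs_one, one_pow, one_mul]
  exact hAc A hA

/-- **TK** (counting). -/
theorem tk (hBK : StmtBK) : StmtTK := by
  obtain ⟨E0, h0⟩ := hBK
  obtain ⟨E1, h1⟩ := Pool.Agent.Helper57.TU.bm
  obtain ⟨E2, h2⟩ := size
  obtain ⟨E3, h3⟩ := size_gg (1 / 10) (by norm_num)
  refine ⟨1 / 2, by norm_num, max (max E0 E1) (max E2 (max E3 2000)),
    fun E z x y hE hSx u v Q b hIn B hBx hBk d hd hcop hdD => ?_⟩
  have hE0 : E0 ≤ E := (le_max_left _ _).trans ((le_max_left _ _).trans hE)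
  have hE1 : E1 ≤ E := (le_max_right _ _).trans ((le_max_left _ _).trans hE)
  have hE2 : E2 ≤ E := (le_max_left _ _).trans ((le_max_right _ _).trans hE)
  have hE3 : E3 ≤ E :=
    (le_max_left _ _).trans ((le_max_right _ _).trans ((le_max_right _ _).trans hE))
  have hE4 : 2000 ≤ E :=
    (le_max_right _ _).trans ((le_max_right _ _).trans ((le_max_right _ _).trans hE))
  have hSu : Su E z x y := hSx.1
  obtain ⟨a1, a2, a3, a4, a5, a6, a7, a8, a9, a10, a11, a12, a13, a14⟩ := h2 E z x y hE2 hSu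
  obtain ⟨-, h3'⟩ := h3 E z x y hE3 hSu
  obtain ⟨hg1, -, -⟩ := h3' B.card hBk
  obtain ⟨b1, b2, b3, b4, b5⟩ := hSu
  obtain ⟨hQd, hb, hxuv⟩ := hIn
  have hQ0 : 0 < Q := by omega
  have hE' : (2000 : ℝ) ≤ E := by exact_mod_cast hE4
  have hlogx : 0 ≤ Real.log x := by linarith [sq_nonneg (E : ℝ)]
  have hpQ : ∀ p : ℕ, p.Prime → p ∣ Q → p ≤ y := by
    intro p hp hpd
    have h1 := (Nat.Prime.dvd_primorial_iff hp).1 (hpd.trans hQd)
    have h2 : (⌊Real.log x / 20⌋₊ : ℝ) ≤ Real.log x / 20 := Nat.floor_le (by positivity)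
    have h3 : (p : ℝ) ≤ (⌊Real.log x / 20⌋₊ : ℝ) := by exact_mod_cast h1
    have h4 : (p : ℝ) ≤ y := by linarith
    exact_mod_cast h4
  constructor
  · intro hcc
    have hd0 : ∀ i ∈ B, 0 < d i := fun i hi => Nat.pos_of_ne_zero (hd i hi).1.ne_zero
    have hc : ∀ i ∈ B, Nat.Coprime Q (d i) := by
      intro i hi
      by_contra hcon
      obtain ⟨p, hp, h1, h2⟩ := Nat.Prime.not_coprime_iff_dvd.1 hcon
      have h3 := hpQ p hp h1
      have h4 := (hd i hi).2 p hp h2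
      omega
    have hq : ∀ p : ℕ, p.Prime → y < p → p ≤ z → ¬ p ∣ Q * ∏ i ∈ B, d i := by
      intro p hp hyp hpz hdv
      rcases (Nat.Prime.dvd_mul hp).1 hdv with h | h
      · have := hpQ p hp h
        omega
      · obtain ⟨i, hi, h2⟩ := (Nat.Prime.prime hp).exists_mem_finset_dvd h
        have h4 := (hd i hi).2 p hp h2
        omega
    have huv : u ≤ v := by omega
    set k := B.card with hk
    have hky : k ≤ y := by
      have e1 : k ≤ k ^ 2 := Nat.le_self_pow (by norm_num) _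
      have e2 : E ≤ E ^ 2 := Nat.le_self_pow (by norm_num) _
      omega
    obtain ⟨c1, c2, c3⟩ := h0 E y z k (ka B) hE0 b1 a6 a9 hBk (ka_le B)
    obtain ⟨-, -, -, c4, c5⟩ := h1 E y z k hE1 b1 a6 a9 hBk
    have hgB : ∏ p ∈ pr y z, (1 - (ka B p : ℝ) / p) = gB y z B := rfl
    rw [hgB] at c1 c2 c3
    set M := XI u v Q / (∏ i ∈ B, (d i : ℝ)) with hMdef
    have hDpos : 0 < ∏ i ∈ B, (d i : ℝ) := Finset.prod_pos fun i hi => by exact_mod_cast hd0 i hi
    have hD : ∏ i ∈ B, (d i : ℝ) ≤ (z : ℝ) ^ (E / 4) := by exact_mod_cast hdD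
    have hM : 1 / 2 * Real.exp (65 / 100 * (E * Real.log z)) ≤ M :=
      (M_lower E z x hE4 (by linarith) b2 _ hDpos hD).trans
        (div_le_div_of_nonneg_right (XX_le_XI hQ0 hQd hxuv) hDpos.le)
    have hM0 : 0 < M := lt_of_lt_of_le (by positivity) hM
    have hgoal : XI u v Q * (gB y z B * ∏ i ∈ B, (1 / (d i : ℝ))) = M * gB y z B := by
      rw [Finset.prod_div_distrib, Finset.prod_const_one, hMdef]
      ring
    rw [hgoal]
    set F := FF u v Q b B d with hF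
    have hcount : ∀ A : Finset ℕ, A ⊆ pr y z →
        |((F.filter (fun n => A ⊆ hit y z B n)).card : ℝ)
          - M * ∏ p ∈ A, ((ka B p : ℝ) / p)| ≤ 2 * (k : ℝ) ^ A.card :=
      fun A hA => count_hit u v Q y z b B d huv hb hd0 hc hcc hq A hA
    have hAA : ∀ A ∈ AA E y z, A ⊆ pr y z := fun A hA => mem_powerset.1 (mem_filter.1 hA).1
    have hAX : ∀ t, ∀ A ∈ AX E y z t, A ⊆ pr y z :=
      fun t A hA => mem_powerset.1 (mem_filter.1 hA).1
    have hBHn := fun n => Pool.Agent.Helper10.TU.bh E y z (hit y z B n) (by omega)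
      (hit_sub y z B n)
    set SU := ∑ n ∈ F, ∏ t ∈ range z, Ut E y z t (hit y z B n) with hSU
    set SE := ∑ n ∈ F, EF E y z (hit y z B n) with hSE
    have hcnt : (((NI u v Q b).filter (fun n => ∀ i ∈ B, d i ∣ n + i ∧ Rg y z (n + i))).card : ℝ) =
        ∑ n ∈ F, (if hit y z B n = ∅ then (1 : ℝ) else 0) := by
      rw [← Finset.sum_filter, Finset.sum_const, nsmul_eq_mul, mul_one, hF, FF,
        Finset.filter_filter]
      congr 2
      refine Finset.filter_congr fun n _ => ?_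
      rw [hit_empty]
      exact ⟨fun h => ⟨fun i hi => (h i hi).1, fun i hi => (h i hi).2⟩,
        fun h i hi => ⟨h.1 i hi, h.2 i hi⟩⟩
    rw [hcnt]
    refine (final E z M (gB y z B) _ SU SE hE4 a1 hM
      (hg1.trans (gg_le_gB y z B hky)) ?_ ?_ ?_ ?_).1
    · exact Finset.sum_le_sum fun n _ => (hBHn n).2.1
    · rw [hSU, hSE, ← Finset.sum_add_distrib]
      exact Finset.sum_le_sum fun n _ => (hBHn n).2.2.1
    · have e1 : SU = ∑ n ∈ F, ∑ A ∈ (AA E y z).filter (fun A => A ⊆ hit y z B n),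
          (-1 : ℝ) ^ A.card := Finset.sum_congr rfl fun n _ => (hBHn n).2.2.2.1
      have e2 := sum_hit F y z B M (AA E y z) (fun A hA => hcount A (hAA A hA))
      have e3 := sum_pow_le y z k (z ^ (E / 32)) hky (AA E y z) hAA c4
      rw [← e1, ← hk] at e2
      have e4 : |M * ∑ A ∈ AA E y z, (-1 : ℝ) ^ A.card * ∏ p ∈ A, ((ka B p : ℝ) / p)
          - M * gB y z B| ≤ Real.exp (-(E : ℝ)) * (M * gB y z B) := by
        rw [← mul_sub, abs_mul, abs_of_pos hM0]
        have := mul_le_mul_of_nonneg_left c2 hM0.le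
        linarith
      have e5 := abs_sub_le SU
        (M * ∑ A ∈ AA E y z, (-1 : ℝ) ^ A.card * ∏ p ∈ A, ((ka B p : ℝ) / p)) (M * gB y z B)
      linarith
    · have e1 : SE = -∑ t ∈ range z, ∑ n ∈ F,
          ∑ A ∈ (AX E y z t).filter (fun A => A ⊆ hit y z B n), (-1 : ℝ) ^ A.card := by
        rw [Finset.sum_comm, ← Finset.sum_neg_distrib]
        exact Finset.sum_congr rfl fun n _ => (hBHn n).2.2.2.2
      have e2 : ∀ t ∈ range z, -(2 * ((z ^ (E / 32) : ℕ) : ℝ) ^ 2) ≤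
          ∑ n ∈ F, ∑ A ∈ (AX E y z t).filter (fun A => A ⊆ hit y z B n), (-1 : ℝ) ^ A.card
          - M * ∑ A ∈ AX E y z t, (-1 : ℝ) ^ A.card * ∏ p ∈ A, ((ka B p : ℝ) / p) := by
        intro t ht
        have f1 := sum_hit F y z B M (AX E y z t) (fun A hA => hcount A (hAX t A hA))
        have f2 := sum_pow_le y z k (z ^ (E / 32)) hky (AX E y z t) (hAX t)
          (c5 t (mem_range.1 ht))
        have f3 := (abs_le.1 f1).1
        rw [← hk] at f3
        linarith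
      have e3 := Finset.sum_le_sum e2
      rw [Finset.sum_sub_distrib, Finset.sum_const, card_range, nsmul_eq_mul, ← Finset.mul_sum]
        at e3
      have e4 := mul_le_mul_of_nonneg_left c3 hM0.le
      linarith
  · intro hcc
    push Not at hcc
    obtain ⟨i, hi, j, hj, hij, hcop'⟩ := hcc
    obtain ⟨p, hp, h1, h2⟩ := Nat.Prime.not_coprime_iff_dvd.1 hcop'
    rw [Finset.card_eq_zero, Finset.filter_eq_empty_iff]
    intro n _ hn
    have h3 : p ∣ n + i := h1.trans (hn i hi).1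
    have h4 : p ∣ n + j := h2.trans (hn j hj).1
    rcases lt_or_gt_of_ne hij with h | h
    · have h5 : p ∣ (n + j) - (n + i) := Nat.dvd_sub h4 h3
      rw [Nat.add_sub_add_left] at h5
      exact Nat.Prime.not_coprime_iff_dvd.2 ⟨p, hp, h1, h5⟩ (hcop i hi j hj h)
    · have h5 : p ∣ (n + i) - (n + j) := Nat.dvd_sub h3 h4
      rw [Nat.add_sub_add_left] at h5
      exact Nat.Prime.not_coprime_iff_dvd.2 ⟨p, hp, h2, h5⟩ (hcop j hj i hi h)

end Pool.Agent.Helper33.SE
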